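import Mathlib
import Pool.Agent.Lib.helper29.Polar14

set_option autoImplicit false

namespace Pool.Agent.Results.MP_8aa8ea_co.NoPolar

open Pool.Agent.Lib.H29.Astral Pool.Agent.Lib.H29.ConfDim Pool.Agent.Lib.H29.Polar14

/-- There is a geometric (14_3) configuration with a selfduality of order two, no realization of
which is congruent to its polar in any circle. -/
theorem result : ∃ I : Fin 14 → Fin 14 → Prop, IsBalanced 3 I ∧ HasInvolutiveDuality I ∧
    (∃ P L, EuRealizes I P L) ∧
    ∀ P L, EuRealizes I P L → ∀ (c : ℂ) (r : ℝ), 0 < r → ¬ CongruentToPolar P L c r :=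
  ⟨II, balanced, duality, ⟨PE, LE, euReal⟩, fun P L h c r _ => not_polar P L h c r⟩

end Pool.Agent.Results.MP_8aa8ea_co.NoPolar
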